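import Pool.Agent.Q226.SC.TateMain

set_option autoImplicit false

/-!
# In characteristic `0` the Tate conjecture for simply connected surfaces implies the Tate
# conjecture for divisors on all varieties
-/

namespace Pool.Agent.Results.MP_1bad5e_ag.AllVarietiesFromQ1

open Pool.Agent.Q226.SC

/-- Let `k` be a finitely generated field of characteristic `0` and `ℓ` a prime number. The
following are equivalent:

1. for every smooth projective geometrically connected and geometrically simply connected surface
`S` over `k`, all classes in `H²(S̄, ℚ_ℓ(1))` fixed by the Galois group of `k` are combinations of
classes of divisors on `S` (this is Q1 for `k` and `ℓ`);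

2. the Tate conjecture for divisors holds at `ℓ` for all smooth projective varieties over all finite
extensions of `k`. -/
theorem result (G : Geo) (E : Type) [Field E] (T : TateData G E) (F : TateFacts T) :
    (∀ S : T.Surf, T.T1k S) ↔ ∀ X : G.Var, T.T1 X :=
  tate_iff F

end Pool.Agent.Results.MP_1bad5e_ag.AllVarietiesFromQ1
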