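import Pool.Agent.Q45.NE.DensB
import Pool.Agent.Y160.SL.Conv

/-!
# The Tate conjecture for the double planes `Y ^ 2 = (w - G(t)) F(t, w)`

Let `k` be a field of characteristic different from two, and let `F(t, w)` be a polynomial over `k`,
monic in `w` of odd degree `n ≥ 3`, geometrically irreducible, with `∂F / ∂w ≠ 0`, such that the affine
curve `C : F(t, w) = 0` is smooth, the units of its coordinate ring are constants and its class group has
no element of order two. For example, `F = a(w) + t`, where `a` is a monic polynomial of odd degree with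
`a' ≠ 0`: then `C` is an affine line.

Let `G(t)` be a polynomial. The surface `Y ^ 2 = (w - G(t)) F(t, w)` is a double covering of the plane
which is branched along the curve `C` and the section `w = G(t)`; these two curves meet over the zeros of
`e(t) = F(t, G(t))`, and the surface is singular at these points. It is fibred over the `t`-line; let `J` be
the Jacobian of the generic fibre over `K = k(t)`. The substitution `w = G + e / x`,
`Y = e y / x ^ ((n + 1) / 2)` gives the model

`y ^ 2 = x ^ n + a₁ x ^ (n - 1) + a₂ e x ^ (n - 2) + ⋯ + a_n e ^ (n - 1)`,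

where `F(t, G + T) = e + a₁ T + a₂ T ^ 2 + ⋯ + a_n T ^ n`, and the point `D : x = 0`,
`y = e ^ ((n - 1) / 2)` of `J(K)`. (For `n = 3` the curve is an elliptic curve, and the section `D` of the
elliptic surface goes through all the `3 deg G` nodes of the model.)

(1) Suppose that `e(t)` is irreducible and separable, and that it does not divide the discriminant of
`F` with respect to `w`. Then the Tate conjecture for divisors at `2` holds for the surface, with
respect to every Galois extension `k'` of `k`; the `2`-primary part of the Tate-Shafarevich group of `J`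
over `K` is zero; and `D` has infinite order and generates `J(K)` modulo `2 ^ N` for all `N`, so that the
rank of `J(K)` is one if it is finitely generated.

(2) Let `k` be a number field, and let `G` be a polynomial whose degree is large compared to `F`:
`deg F_i < (n - i) deg G` for all the coefficients `F_i(t)` of `w ^ i` in `F`, `i < n`. Then the
conclusions of (1) hold for the surfaces `Y ^ 2 = (w - G(t) - v) F(t, w)` for `100%` of the integers `v`.

(3) The curves `a(w) + t = 0` satisfy the conditions. In this case (2) holds for all non-constant `G`.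
For `n = 3` the smooth projective models are elliptic surfaces over the projective line with a section,
which are simply connected, and the geometric genus is the integral part of `deg G / 2`.
-/

set_option autoImplicit false
set_option linter.all false

open Polynomial IsDedekindDomain Filter Topology
open scoped Classical

namespace Pool.Agent.Results.MP_1bad5e_ag.BranchedAlongSection

open Pool.Agent.Y160.SL
open Pool.Agent.TH115.GD (incl Sep Comp)

/-- The partial derivative of `F(t, w)` with respect to `t`: the derivative is applied to the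
coefficients. -/
noncomputable def derivT {k : Type} [Field k] (F : k[X][X]) : k[X][X] :=
  F.sum fun i a => C (derivative a) * X ^ i

/-- The affine curve `F(t, w) = 0` is smooth. -/
def IsSmooth {k : Type} [Field k] (F : k[X][X]) : Prop :=
  ∃ a b c : k[X][X], a * F + b * derivative F + c * derivT F = 1

/-- The polynomial `F` is irreducible over all extensions of `k`. -/
def IsGeomIrreducible {k : Type} [Field k] (F : k[X][X]) : Prop :=
  ∀ (k' : Type) [Field k'] [Algebra k k'], Irreducible (F.map (mapRingHom (algebraMap k k')))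

/-- The units of the coordinate ring `k[t, w] / (F)` of the curve `F(t, w) = 0` are constants. -/
def UnitsAreConstants {k : Type} [Field k] (F : k[X][X]) : Prop :=
  ∀ u : (AdjoinRoot F)ˣ, ∃ c : k, (u : AdjoinRoot F) = AdjoinRoot.of F (C c)

/-- The coordinate ring has no ideal class of order two: if `J ^ 2` is principal then so is `J`. -/
def NoClassOfOrderTwo {k : Type} [Field k] (F : k[X][X]) : Prop :=
  ∀ J : Ideal (AdjoinRoot F), (J ^ 2).IsPrincipal → J.IsPrincipal

/-- The conditions on the curve `F(t, w) = 0`. -/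
structure IsBranchCurve {k : Type} [Field k] (F : k[X][X]) : Prop where
  monic : F.Monic
  odd : Odd F.natDegree
  three_le : 3 ≤ F.natDegree
  irreducible : IsGeomIrreducible F
  deriv_ne : derivative F ≠ 0
  smooth : IsSmooth F
  dedekind : IsDedekindDomain (AdjoinRoot F)
  units : UnitsAreConstants F
  noTorsion : NoClassOfOrderTwo F

/-- The polynomial `e(t) = F(t, G(t))`. -/
noncomputable def valueAt {k : Type} [Field k] (F : k[X][X]) (G : k[X]) : k[X] := F.eval G

/-- The polynomial `x ^ n + a₁ x ^ (n - 1) + a₂ e x ^ (n - 2) + ⋯ + a_n e ^ (n - 1)`, where `e = F(t, G)`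
and `F(t, G + T) = e + a₁ T + a₂ T ^ 2 + ⋯ + a_n T ^ n`. -/
noncomputable def oddModel {k : Type} [Field k] (F : k[X][X]) (G : k[X]) : k[X][X] :=
  X ^ F.natDegree + ∑ i ∈ Finset.range F.natDegree,
    C ((taylor G F).coeff (i + 1) * valueAt F G ^ i) * X ^ (F.natDegree - 1 - i)

/-- The field `F` is the extension `k' K` of `K` by the constants `k'`. -/
structure IsConstantExtension (k k' K F : Type) [Field k] [Field k'] [Algebra k k'] [Field K]
    [Algebra k[X] K] [Field F] [Algebra k'[X] F] [Algebra K F] : Prop where
  inj : Function.Injective (algebraMap k'[X] F)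
  comp : ∀ p : k[X], algebraMap K F (algebraMap k[X] K p) =
    algebraMap k'[X] F (p.map (algebraMap k k'))
  gen : IntermediateField.adjoin K (Set.range ((algebraMap k'[X] F).comp C)) = ⊤

/-- The restriction of the cochain `c` to the completion of `F` at every maximal ideal of the Dedekind
domain `B` with field of fractions `F` is a coboundary. -/
def IsSelmer {K F : Type} [Field K] [Field F] [Algebra K F] (B : Type) [CommRing B]
    [IsDedekindDomain B] [Algebra B F] [IsFractionRing B F] (f : K[X])
    (c : (Sep F ≃ₐ[F] Sep F) → Jac 2 f (Sep F)) : Prop :=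
  ∀ v : HeightOneSpectrum B, LocTriv 2 f (Comp B F v) (Sep (Comp B F v)) c

/-- The class of `c`, with values in `T_2 J`, comes from `J(K)`: for every `n` there are `P` in `J(K)`
and `R` in `J(Sep F)` with `2 ^ n R = P` and `c n σ = σ R - R` for all `σ`. -/
def ComesFromK {K F : Type} [Field K] [Field F] [Algebra K F] (f : K[X])
    (c : ℕ → (Sep F ≃ₐ[F] Sep F) → Jac 2 f (Sep F)) : Prop :=
  ∀ n, ∃ (P : Jac 2 f K) (R : Jac 2 f (Sep F)), 2 ^ n • R = jm 2 f (incl K K (Sep F)) P ∧
    IsCobOf 2 f (c n) R

/-- If `c` is a cocycle of `Gal(Sep F / F)` with values in `T_2 J` which is locally trivial at the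
maximal ideals of `B`, and the class of `c` in `H ^ 1 (F, V_2 J)` is fixed by the Galois group of `K`,
then the class of `c` comes from `J(K)`. -/
def TateAt {K F : Type} [Field K] [Field F] [Algebra K F] (B : Type) [CommRing B]
    [IsDedekindDomain B] [Algebra B F] [IsFractionRing B F] (f : K[X]) : Prop :=
  ∀ c : ℕ → (Sep F ≃ₐ[F] Sep F) → Jac 2 f (Sep F), IsTC 2 2 f c →
    (∀ n, IsSelmer B f (c n)) → IsInv 2 2 f c → ComesFromK f c

/-- The Tate conjecture at `2` for the surface with generic fibre `y ^ 2 = f(x)` over `K`, for every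
Galois extension `k'` of `k` (for example `k` or the separable closure of `k`), `F = k' K` and `B` the
integral closure of `k'[t]` in `F`: only the places of `F` over the affine `t`-line are used. -/
def TateConj (k : Type) {K : Type} [Field k] [Field K] [Algebra k[X] K] (f : K[X]) : Prop :=
  ∀ (k' F B : Type) [Field k'] [Algebra k k'] [IsGalois k k'] [Field F] [Algebra k'[X] F]
    [Algebra K F] [CommRing B] [IsDedekindDomain B] [Algebra B F] [IsFractionRing B F]
    [Algebra k'[X] B] [IsScalarTower k'[X] B F] [IsIntegralClosure B k'[X] F],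
    IsConstantExtension k k' K F → TateAt (F := F) B f

/-- The ideal of the divisor `u(x) = 0`, `y = v(x)` in the coordinate ring of the affine curve
`y ^ 2 = f(x)`. -/
noncomputable def divIdeal {K : Type} [Field K] (f u v : K[X]) : Ideal (CoordRing 2 f) :=
  Ideal.span {ofPoly 2 f u, wfun 2 f - ofPoly 2 f v}

/-- The ideal `I` of `R` is an invertible module, and `P` is its class in the Picard group. -/
def IsIdealClass {R : Type} [CommRing R] (P : Additive (CommRing.Pic R)) (I : Ideal R) : Prop :=
  ∃ _ : Module.Invertible R I, P = Additive.ofMul (CommRing.Pic.mk R I)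

/-- The element `P` of `J(K) = Pic(K[x, y] / (y ^ 2 - f(x)))` is the class of the ideal of the divisor
`u(x) = 0`, `y = v(x)`. -/
def IsDivisor {K : Type} [Field K] (f u v : K[X]) (P : Jac 2 f K) : Prop :=
  IsIdealClass (R := CoordRing 2 (f.map (algebraMap K K))) P
    (divIdeal (f.map (algebraMap K K)) u v)

/-- The element `D` of `M` has infinite order, and it generates `M` modulo `2 ^ N` for all `N`. -/
def IsGeneratorAtTwo {M : Type} [AddCommGroup M] (D : M) : Prop :=
  (∀ m : ℤ, m • D = 0 → m = 0) ∧ ∀ (N : ℕ) (x : M), ∃ (y : M) (m : ℤ), x - 2 ^ N • y = m • D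

/-- The conclusions for the surface `Y ^ 2 = (w - G(t)) F(t, w)`: the Tate conjecture at `2`, the
triviality of the `2`-primary part of the Tate-Shafarevich group (even with respect to the places of the
affine `t`-line only), and the point `x = 0`, `y = e ^ ((n - 1) / 2)` generates `J(K)` at `2`. -/
def Concl {k : Type} [Field k] (F : k[X][X]) (G : k[X]) : Prop :=
  ∀ (K : Type) [Field K] [Algebra k[X] K] [IsFractionRing k[X] K],
    TateConj k ((oddModel F G).map (algebraMap k[X] K)) ∧
    ShaTriv 2 2 k[X] ((oddModel F G).map (algebraMap k[X] K)) ∧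
    ∃ D : Jac 2 ((oddModel F G).map (algebraMap k[X] K)) K, IsGeneratorAtTwo D ∧
      IsDivisor ((oddModel F G).map (algebraMap k[X] K)) X
        (C (algebraMap k[X] K (valueAt F G ^ ((F.natDegree - 1) / 2)))) D

/-- (1) All fields. -/
def Criterion : Prop :=
  ∀ (k : Type) [Field k], (2 : k) ≠ 0 → ∀ (F : k[X][X]) (G : k[X]), IsBranchCurve F →
    Irreducible (valueAt F G) → (valueAt F G).Separable → ¬ valueAt F G ∣ F.discr → Concl F G

/-- The degree of `G` is large compared to `F`. -/
def IsLarge {k : Type} [Field k] (F : k[X][X]) (G : k[X]) : Prop :=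
  ∀ i < F.natDegree, (F.coeff i).natDegree < (F.natDegree - i) * G.natDegree

/-- (2) Number fields: the set of the exceptions has density zero. -/
def NumberFields : Prop :=
  ∀ (k : Type) [Field k] [NumberField k] (F : k[X][X]) (G : k[X]), IsBranchCurve F → IsLarge F G →
    Tendsto (fun H : ℕ => (({v : ℤ | |v| ≤ (H : ℤ) ∧ ¬ Concl F (G + C ((v : ℤ) : k))}.ncard : ℕ) : ℝ) /
      (2 * (H : ℝ) + 1)) atTop (𝓝 0)

/-- (3) The curves `a(w) + t = 0`. -/
def Lines : Prop :=
  ∀ (k : Type) [Field k] (a : k[X]), a.Monic → Odd a.natDegree → 3 ≤ a.natDegree →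
    derivative a ≠ 0 → IsBranchCurve (a.map C + C X) ∧
      ∀ G : k[X], 0 < G.natDegree → IsLarge (a.map C + C X) G

theorem tate_of {K F : Type} [Field K] [Field F] [Algebra K F] {B : Type} [CommRing B]
    [IsDedekindDomain B] [Algebra B F] [IsFractionRing B F] {f : K[X]}
    (h : Pool.Agent.Q45.GP.TateOver (F := F) 2 2 B f) : TateAt (F := F) B f := by
  intro c hc hl hi n
  exact h c ⟨fun n => ⟨(hc.coc n).lc, (hc.coc n).mul⟩, hc.zero, hc.step⟩ hl
    (fun τ => by
      obtain ⟨m, Q, hQ, hm⟩ := hi τ
      exact ⟨m, Q, ⟨hQ.zero, hQ.step⟩, hm⟩) n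

theorem irr_self {k : Type} [Field k] {F : k[X][X]} (h : IsGeomIrreducible F) : Irreducible F := by
  have h1 := h k
  have h3 : mapRingHom (algebraMap k k) = RingHom.id k[X] := by
    rw [Algebra.algebraMap_self, mapRingHom_id]
  rwa [h3, Polynomial.map_id] at h1

theorem gen_of {M : Type} [AddCommGroup M] {D : M}
    (h : Pool.Agent.Y160.SL.IsBasisAt 2 (fun _ : Fin 1 => D)) : IsGeneratorAtTwo D := by
  obtain ⟨h1, h2⟩ := h
  refine ⟨fun m hm => ?_, fun N x => ?_⟩
  · have h3 := Fintype.linearIndependent_iff.1 h1 (fun _ => m) (by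
      rw [Finset.sum_const, Finset.card_univ, Fintype.card_fin, one_smul]
      exact hm)
    exact h3 0
  · obtain ⟨y, hy⟩ := h2 N x
    have h3 : Set.range (fun _ : Fin 1 => D) = {D} := Set.range_const
    rw [h3, AddSubgroup.mem_closure_singleton] at hy
    obtain ⟨m, hm⟩ := hy
    exact ⟨y, m, hm.symm⟩

theorem criterion : Criterion := by
  intro k _ h2 F G hF he hs hd K _ _ _
  obtain ⟨c, hc⟩ := Pool.Agent.Q45.NE.exists_cof F G
  have hpos : 0 < F.natDegree := hF.odd.pos
  have hdat : Pool.Agent.Q45.NE.Dat F G c := ⟨h2, hF.monic, hF.odd, by have := hF.three_le; omega,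
    irr_self hF.irreducible, hF.deriv_ne, hF.smooth, ⟨hF.dedekind, hF.units, hF.noTorsion⟩, hc, he, hs,
    Pool.Agent.Q45.NE.unr_of_discr hF.monic hpos he hd⟩
  have hmod : oddModel F G = Pool.Agent.Q45.NE.model F G := rfl
  obtain ⟨h1, h3⟩ := Pool.Agent.Q45.NE.sha_ne hdat (K := K) inferInstance
  refine ⟨?_, shaTriv_of h1, _, gen_of h3, Pool.Agent.Q45.NE.mk_cls hdat inferInstance⟩
  intro k' E B _ _ _ _ _ _ _ _ _ _ _ _ _ hE
  exact tate_of (Pool.Agent.Q45.NE.tate_ne (k' := k') (A' := B) hdat (hF.irreducible k') inferInstance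
    ⟨hE.inj, hE.comp, hE.gen⟩)

theorem lines : Lines := by
  intro k _ a ha hodd h3 hd
  have hpos : 0 < a.natDegree := by omega
  have hgs : a.map C + C X = Pool.Agent.Q45.TG.gs a := rfl
  have hB := Pool.Agent.Q45.TG.gs_isBr (p := 2) a
  have hdeg := Pool.Agent.Q45.TG.gs_natDegree ha hpos
  rw [hgs]
  refine ⟨⟨Pool.Agent.Q45.TG.gs_monic ha hpos, ?_, ?_, ?_, Pool.Agent.Q45.TG.gs_der hd,
    Pool.Agent.Q45.TG.gs_smooth a, hB.ded, hB.units, hB.cls⟩, ?_⟩
  · rw [hdeg]
    exact hodd
  · rw [hdeg]
    exact h3
  · intro k' _ _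
    have h1 : (Pool.Agent.Q45.TG.gs a).map (mapRingHom (algebraMap k k')) =
        Pool.Agent.Q45.TG.gs (a.map (algebraMap k k')) := by
      unfold Pool.Agent.Q45.TG.gs
      rw [Polynomial.map_add, map_C, coe_mapRingHom, map_X, Polynomial.map_map, Polynomial.map_map]
      congr 2
      refine RingHom.ext fun c => ?_
      show (C c : k[X]).map (algebraMap k k') = C (algebraMap k k' c)
      rw [map_C]
    rw [h1]
    exact Pool.Agent.Q45.TG.gs_irr (ha.map _) (by rwa [ha.natDegree_map])
  · intro G hG i hi
    rw [hdeg] at hi ⊢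
    have h1 : ((Pool.Agent.Q45.TG.gs a).coeff i).natDegree ≤ 1 := by
      rw [← hgs, coeff_add, coeff_map, coeff_C]
      refine (natDegree_add_le _ _).trans (max_le ?_ ?_)
      · rw [natDegree_C]
        exact Nat.zero_le _
      · split_ifs
        · exact natDegree_X_le
        · rw [natDegree_zero]
          exact Nat.zero_le _
    rcases Nat.eq_zero_or_pos i with h0 | h0
    · rw [h0, Nat.sub_zero]
      have h2 : 3 * 1 ≤ a.natDegree * G.natDegree := Nat.mul_le_mul h3 hG
      rw [h0] at h1
      omega
    · have h2 : (Pool.Agent.Q45.TG.gs a).coeff i = C (a.coeff i) := by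
        rw [← hgs, coeff_add, coeff_map, coeff_C, if_neg h0.ne', add_zero]
      rw [h2, natDegree_C]
      exact Nat.mul_pos (by omega) hG

/-- (1) The criterion. (2) Number fields. (3) Examples of branch curves. -/
theorem result : Criterion ∧ NumberFields ∧ Lines := by
  refine ⟨criterion, ?_, lines⟩
  intro k _ _ F G hF hG
  have hpos : 0 < F.natDegree := hF.odd.pos
  have hirr := irr_self hF.irreducible
  have key := Pool.Agent.Q45.HI.tendsto_of_ud (ι := Unit)
    (S := {v : Unit → ℤ | ¬ Concl F (G + C ((v () : ℤ) : k))}) (fun ε hε => by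
      refine Pool.Agent.Y706.UD_mono ?_ (Pool.Agent.Q45.NE.ud_good hF.monic hirr hpos hG hε)
      intro v hv hcon
      apply hv
      exact criterion k two_ne_zero F _ hF hcon.1 hcon.1.separable hcon.2)
  refine key.congr fun H => ?_
  rw [Fintype.card_unit, pow_one]
  congr 2
  have h1 : {v : ℤ | |v| ≤ (H : ℤ) ∧ ¬ Concl F (G + C ((v : ℤ) : k))} =
      (fun v : Unit → ℤ => v ()) '' {v : Unit → ℤ | (∀ i, |v i| ≤ (H : ℤ)) ∧
        v ∈ {v : Unit → ℤ | ¬ Concl F (G + C ((v () : ℤ) : k))}} := by
    ext v
    constructor
    · rintro ⟨h2, h3⟩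
      exact ⟨fun _ => v, ⟨fun _ => h2, h3⟩, rfl⟩
    · rintro ⟨w, ⟨h2, h3⟩, rfl⟩
      exact ⟨h2 (), h3⟩
  rw [h1, Set.ncard_image_of_injective _ (fun a b h => _root_.funext fun _ => h)]

end Pool.Agent.Results.MP_1bad5e_ag.BranchedAlongSection
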