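import Pool.Agent.Q269.FG.GenTwo
import Pool.Agent.Q269.FG.Coh

/-!
# The Tate conjecture for almost all the simply connected surfaces
# `y ^ 2 = D(t) (x - b 1(t)) ⋯ (x - b n(t))` over every infinite finitely generated field of
# characteristic different from 2

Let `k` be an infinite finitely generated field of any characteristic different from 2, which contains a
square root of `-1`, and `A` an infinite finitely generated subring of `k`; if the characteristic of `k`
is positive, we suppose that `k` is the field of fractions of `A`. Let `n ≥ 3` be odd, and `b 1, …, b n`
polynomials over `A` such that all the differences `b i - b j` (`i ≠ j`) have the same degree `N ≥ 1` and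
the product of the differences `b i - b j`, `i < j`, is separable over `k`. (For example `N = 1`,
`b i = c i t + (c i) ^ 2`, where the `c i` are distinct elements of `A` such that the sums `c i + c j`,
`i < j`, are distinct.) For a monic polynomial `D` over `A` let `X_D` be a smooth projective model over
`k` of the surface

`y ^ 2 = D(t) (x - b 1) ⋯ (x - b n)`.

It is fibred over the `t`-line in curves of genus `(n - 1) / 2`, and it is geometrically simply connected
(if `D` is squarefree and prime to the differences, and not constant): the fibration has a section, and
the fibres over the zeros of `D` are trees of rational curves.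

Theorem. For every `η > 0` there is a proper ideal `M` of finite index of `A` such that, for all large
`m` with `m + N` odd, for at least the proportion `1 - η` of the monic polynomials `E` of degree `m` over
`A / M`, EVERY monic `D` over `A` congruent to `E` modulo `M` has the following property: there are a
homomorphism `r` of `A` onto a finite field `F` (of odd characteristic, with a square root of `-1`) and a
discrete valuation ring `O` with fraction field `k`, containing `A`, with a homomorphism to `F` which
extends `r`, such that over `F` the reduced differences have the same degree `N` and a squarefree product,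
the reduced polynomial `D` is squarefree and prime to the differences, and for the Jacobian `J` over
`F(t)` of the reduced curve:

1. all classes in `H ^ 1 (F(t), J)` killed by a power of `2` which are trivial over the completions of
  `F(t)` at all the maximal ideals of `F[t]` are zero;
2. every point of `J(F(t))` is the sum of a point killed by `2` and of twice a point, so `J(F(t))` is
  finite (it is finitely generated).

So 100 percent of the polynomials `D` over `A` (a random residue class modulo ideals of finite index)
have this property.

The property gives the Tate conjecture for the divisors on `X_D` over `k`, at all primes `ℓ`: `X_D` has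
good reduction over `O`; over `F` the rank is zero and the Brauer group has trivial `2`-primary part, so
by Artin, Tate and Milne all the Tate classes of the reduction are combinations of the classes of the
components of the fibres and of a section; these lift to divisors on `X_D`, and the specialisation of the
Tate classes is injective. The Tate conjecture for `X_D` over `k` implies that over all the subfields of
finite index over which `X_D` is defined.

The starting files contain the theorem for number fields `k` (`MP_1bad5e_ag.HyperellipticSurfaces`). The
new ingredients are an integral form of the embedding theorem of Cassels (`Pool.Agent.Q269.FG.Emb`: there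
are infinitely many primes `p` with an embedding of `k` into `ℚ_p` which maps `A` and finitely many given
elements into `ℤ_p`) and its version in characteristic `p` (`Pool.Agent.Q269.FG.CasP`: embeddings into
`F((u))`). Over `F(t)` a sixth of the twists is good (`MP_60d5ce_nt.HyperellipticTwists`), uniformly in
`F`; finally many reductions `r` are used at the same time.

The definitions of the cohomology classes over `F(t)` are in `Pool.Agent.Q269.FG.Coh`.
-/

set_option autoImplicit false
set_option linter.all false

namespace Pool.Agent.Results.MP_1bad5e_ag.EveryFieldTwists

open Polynomial
open Pool.Agent.Q269.FG.Coh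
open Pool.Agent.Y713.Jac (J)

section
variable {A F : Type} [CommRing A] [Field F] (r : A →+* F) {n : ℕ} (N : ℕ) (b : Fin n → A[X])

/-- The reduced curve `y ^ 2 = D ∏ (x - b i)` over `F(t)`. -/
noncomputable def reduced (D : A[X]) : (RatFunc F)[X] :=
  twist (RatFunc F) (fun i => (b i).map r) (D.map r)

/-- The conditions for the reduced curve over `F(t)`. -/
structure IsGoodReduction (D : A[X]) : Prop where
  surjective : Function.Surjective r
  two : (2 : F) ≠ 0
  root : IsSquare (-1 : F)
  degree : ∀ i j, i ≠ j → ((b i).map r - (b j).map r).natDegree = N
  squarefree : Squarefree (differences (fun i => (b i).map r))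
  twist_squarefree : Squarefree (D.map r)
  coprime : ∀ i j, i ≠ j → IsCoprime (D.map r) ((b i).map r - (b j).map r)
  sha : ShaTrivial 2 (reduced r b D) F[X]
  points : TorsionTimesPowers 2 (J 2 (reduced r b D) (RatFunc F))

variable (k : Type) [Field k] [Algebra A k]

/-- `k` is the fraction field of a discrete valuation ring containing `A` with a homomorphism to `F`
which extends `r`. -/
def IsDominated : Prop :=
  ∃ (O : Subring k) (_ : IsDiscreteValuationRing O) (_ : IsFractionRing O k)
    (h : ∀ a : A, algebraMap A k a ∈ O) (ρ : O →+* F),
      ρ.comp ((algebraMap A k).codRestrict O h) = r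

end

section
variable {A : Type} [CommRing A] (k : Type) [Field k] [Algebra A k] {n : ℕ} (N : ℕ)
  (b : Fin n → A[X])

/-- The property of the polynomial `D`: a good reduction over a finite field, at a discrete valuation
ring of `k`. -/
def HasGoodReduction (D : A[X]) : Prop :=
  ∃ (F : Type) (_ : Field F) (_ : Finite F) (r : A →+* F), IsDominated r k ∧
    IsGoodReduction r N b D

/-- All the differences of the polynomials `b i` over `A` have the same degree `N ≥ 1`, and the product
of the differences is separable over the field `k`. -/
structure IsSeparablyAdmissible : Prop where
  pos : 1 ≤ N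
  degree : ∀ i j, i ≠ j → (b i - b j).natDegree = N
  separable : ((differences b).map (algebraMap A k)).Separable

end

theorem result {k : Type} [Field k] (hk : IsFinitelyGenerated k) (h2 : (2 : k) ≠ 0)
    (hi : IsSquare (-1 : k)) {A : Type} [CommRing A] [Infinite A] [Algebra.FiniteType ℤ A]
    [Algebra A k] (hA : Function.Injective (algebraMap A k)) (hAk : CharZero k ∨ IsFractionRing A k)
    {n : ℕ} (hn : Odd n) (hn3 : 3 ≤ n) {N : ℕ} (b : Fin n → A[X])
    (hb : IsSeparablyAdmissible k N b) :
    HoldsForAlmostAll {m | Odd (m + N)} (HasGoodReduction k N b) := by
  have hsup : Pool.Agent.Q269.FG.Supply (algebraMap A k) := by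
    by_cases h0 : CharZero k
    · exact Pool.Agent.Q269.FG.supply0 hk _ range_le_of_finiteType
    · haveI hfr0 : IsFractionRing A k := hAk.resolve_left h0
      obtain ⟨p, hp⟩ := CharP.exists k
      have hp0 : p ≠ 0 := by
        rintro rfl
        exact h0 (CharP.charP_to_charZero k)
      haveI : Fact p.Prime := ⟨(CharP.char_is_prime_or_zero k p).resolve_right hp0⟩
      haveI : Infinite k := Infinite.of_injective _ hA
      letI : Algebra (ZMod p) k := ZMod.algebra k p
      have hfr : ∀ x : k, ∃ a b : A, algebraMap A k b ≠ 0 ∧
          x = algebraMap A k a / algebraMap A k b := by
        intro x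
        obtain ⟨a, c, hc, h⟩ := IsFractionRing.div_surjective (A := A) x
        haveI : IsDomain A := hA.isDomain (algebraMap A k)
        exact ⟨a, c, (map_ne_zero_iff _ hA).2 (nonZeroDivisors.ne_zero hc), h.symm⟩
      obtain ⟨s, hs⟩ := range_le_of_finiteType (A := A) (k := k)
      haveI : Algebra.EssFiniteType (ZMod p) k := by
        rw [← IntermediateField.fg_top_iff]
        refine ⟨s, ?_⟩
        rw [eq_top_iff]
        intro x _
        have hle : ∀ y : A, algebraMap A k y ∈ IntermediateField.adjoin (ZMod p) (s : Set k) := by
          intro y
          have h1 : Subring.closure (s : Set k) ≤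
              (IntermediateField.adjoin (ZMod p) (s : Set k)).toSubfield.toSubring := by
            rw [Subring.closure_le]
            exact IntermediateField.subset_adjoin _ _
          exact h1 (hs ⟨y, rfl⟩)
        obtain ⟨a, c, hc, rfl⟩ := hfr x
        exact div_mem (hle a) (hle c)
      exact Pool.Agent.Q269.FG.supplyP (p := p) _ hfr ⟨s, hs⟩
  refine HoldsForAlmostAll.of (Q := fun D : A[X] => ∃ (F : Type) (_ : Field F) (_ : Finite F)
    (r : A →+* F) (O : Subring k) (_ : IsDiscreteValuationRing O) (_ : IsFractionRing O k)
    (ρ : O →+* F) (h : ∀ a, algebraMap A k a ∈ O),
      ρ.comp ((algebraMap A k).codRestrict O h) = r ∧ Pool.Agent.Y164.NZ.RedTwo N b r ∧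
        Pool.Agent.Q269.FG.GoodAt r b D) ?_ ?_
  · intro η hη
    obtain ⟨M, hM1, hM2, h⟩ := Pool.Agent.Q269.FG.mainTwo h2 hi (algebraMap A k) hA hsup hn hn3
      hb.pos b hb.degree hb.separable η hη
    refine ⟨M, hM1, hM2, ?_⟩
    filter_upwards [h] with m hm hmS
    exact hm hmS
  · rintro D hD ⟨F, i1, i2, r, O, i3, i4, ρ, h5, hρr, hred, htw, hgood⟩
    refine ⟨F, i1, i2, r, ⟨O, i3, i4, h5, ρ, hρr⟩, ?_⟩
    exact ⟨hred.surj, hred.two, hred.sqr, hred.deg, hred.sq, htw.2.2.1, htw.2.2.2, hgood.1,
      hgood.2⟩

end Pool.Agent.Results.MP_1bad5e_ag.EveryFieldTwists
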