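import Pool.Agent.Q45.TG.Surf
import Pool.Agent.Q45.TT.Dens

/-!
# The Tate conjecture for the simply connected surfaces `w ^ q = F(x, h(u))`

Let `p` be a prime, `q` a power of `p`, and `k` a field which contains a primitive root of unity of
order `q`. Let `F(x, s)` be a polynomial over `k`, monic in `x` of degree prime to `p`, geometrically
irreducible, with `∂F / ∂x ≠ 0`, such that the affine curve `C : F(x, s) = 0` is smooth, the units of
its coordinate ring are constants and its class group has no element of order `p`. (If `C` has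
only one place at infinity, and it is rational, then the second condition holds and the third one
says that the Jacobian of `C` has no `k`-rational point of order `p`.) Let

`h(u) = a₁ + (a₂ + (⋯ + (a_m + u ^ p) ^ p ⋯) ^ p) ^ p`

with `a₁, …, a_m` in `k`, `m ≥ 0`. The surface `w ^ q = F(x, h(u))` is a cyclic covering of the plane
with coordinates `x, u`; `J` is the Jacobian of its generic fibre over `K = k(u)`.

(1) Suppose that `F` modulo `b` is irreducible and separable for all irreducible polynomials `b(s)` such
that `b(h(u))` has a multiple factor; if `b` is separable, then `b` is a factor `s - c` with a critical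
value `c` of `h`, and the condition is that `F(x, c)` is irreducible and separable. Then the Tate
conjecture for divisors at `p` holds for the surface, with respect to every Galois extension `k'`
of `k`; the `p`-primary part of the Tate-Shafarevich group of `J` over `K` is zero, and `J(K)` is
uniquely divisible by `p`. For `m = 0` there is no condition on `b`: the conclusion holds for all the
cyclic coverings `w ^ q = F(x, u)` of the plane as above.

(2) Let `k` be a number field and `a₁, …, a_m` in `k`. The conclusions of (1) hold for the surfaces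
`w ^ q = g(x) + h(u)` for `100%` of the monic polynomials `g` of degree `n` with integer coefficients,
`n` prime to `p`, ordered by the height.

The smooth projective models of `w ^ q = g(x) + h(u)` in (2) are geometrically simply connected: the
affine surface over `ℂ` is smooth, and it is a bouquet of `(q - 1) (n - 1) (p ^ m - 1)` spheres of
dimension two. The geometric genus is unbounded.
-/

set_option autoImplicit false
set_option linter.all false

open Polynomial IsDedekindDomain Filter Topology
open scoped Classical

namespace Pool.Agent.Results.MP_1bad5e_ag.NestedPowerSurfaces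

open Pool.Agent.Y160.SL
open Pool.Agent.TH115.GD (incl Sep Comp)

/-- The polynomial `a₁ + (a₂ + (⋯ + (a_m + u ^ p) ^ p ⋯) ^ p) ^ p`. -/
noncomputable def nested {k : Type} [Field k] (p : ℕ) (l : List k) : k[X] :=
  l.foldr (fun a f => C a + f ^ p) X

/-- The polynomial `F(x, h(u))` over the field `K` which contains `k[u]`. -/
noncomputable def surfPoly {k : Type} [Field k] (F : k[X][X]) (h : k[X]) (K : Type) [Field K]
    [Algebra k[X] K] : K[X] := (F.map (compRingHom h)).map (algebraMap k[X] K)

/-- The partial derivative of `F(x, s)` with respect to `s`: the derivative is applied to the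
coefficients. -/
noncomputable def derivS {k : Type} [Field k] (F : k[X][X]) : k[X][X] :=
  F.sum fun i a => C (derivative a) * X ^ i

/-- The affine curve `F(x, s) = 0` is smooth. -/
def IsSmooth {k : Type} [Field k] (F : k[X][X]) : Prop :=
  ∃ a b c : k[X][X], a * F + b * derivative F + c * derivS F = 1

/-- The polynomial `F` is irreducible over all extensions of `k`. -/
def IsGeomIrreducible {k : Type} [Field k] (F : k[X][X]) : Prop :=
  ∀ (k' : Type) [Field k'] [Algebra k k'], Irreducible (F.map (mapRingHom (algebraMap k k')))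

/-- The units of the coordinate ring `k[s, x] / (F)` of the curve `F(x, s) = 0` are constants. -/
def UnitsAreConstants {k : Type} [Field k] (F : k[X][X]) : Prop :=
  ∀ u : (AdjoinRoot F)ˣ, ∃ c : k, (u : AdjoinRoot F) = AdjoinRoot.of F (C c)

/-- The coordinate ring has no ideal class of order `p`: if `J ^ p` is principal then so is `J`. -/
def NoClassOfOrder {k : Type} [Field k] (p : ℕ) (F : k[X][X]) : Prop :=
  ∀ J : Ideal (AdjoinRoot F), (J ^ p).IsPrincipal → J.IsPrincipal

/-- The conditions on the curve `F(x, s) = 0`. -/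
structure IsBranchCurve {k : Type} [Field k] (p : ℕ) (F : k[X][X]) : Prop where
  monic : F.Monic
  coprime : p.Coprime F.natDegree
  irreducible : IsGeomIrreducible F
  deriv_ne : derivative F ≠ 0
  smooth : IsSmooth F
  dedekind : IsDedekindDomain (AdjoinRoot F)
  units : UnitsAreConstants F
  noTorsion : NoClassOfOrder p F

/-- The polynomial `F(x, s)` modulo `b(s)`. -/
noncomputable def modF {k : Type} [Field k] (F : k[X][X]) (b : k[X]) :
    (k[X] ⧸ Ideal.span {b})[X] := F.map (Ideal.Quotient.mk (Ideal.span {b}))

/-- The polynomial `F` modulo `b` is irreducible and separable for all irreducible polynomials `b(s)`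
such that `b(h(u))` has a multiple factor. -/
def GoodCriticalValues {k : Type} [Field k] (F : k[X][X]) (h : k[X]) : Prop :=
  ∀ b : k[X], b.Monic → Irreducible b → ¬ Squarefree (b.comp h) →
    Irreducible (modF F b) ∧ (modF F b).Separable

/-- The field `F` is the extension `k' K` of `K` by the constants `k'`. -/
structure IsConstantExtension (k k' K F : Type) [Field k] [Field k'] [Algebra k k'] [Field K]
    [Algebra k[X] K] [Field F] [Algebra k'[X] F] [Algebra K F] : Prop where
  inj : Function.Injective (algebraMap k'[X] F)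
  comp : ∀ p : k[X], algebraMap K F (algebraMap k[X] K p) =
    algebraMap k'[X] F (p.map (algebraMap k k'))
  gen : IntermediateField.adjoin K (Set.range ((algebraMap k'[X] F).comp C)) = ⊤

/-- The restriction of the cochain `c` to the completion of `F` at every maximal ideal of the Dedekind
domain `B` with field of fractions `F` is a coboundary. -/
def IsSelmer (q : ℕ) {K F : Type} [Field K] [Field F] [Algebra K F] (B : Type) [CommRing B]
    [IsDedekindDomain B] [Algebra B F] [IsFractionRing B F] (f : K[X])
    (c : (Sep F ≃ₐ[F] Sep F) → Jac q f (Sep F)) : Prop :=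
  ∀ v : HeightOneSpectrum B, LocTriv q f (Comp B F v) (Sep (Comp B F v)) c

/-- The class of `c`, with values in `T_p J`, comes from `J(K)`: for every `n` there are `P` in `J(K)`
and `R` in `J(Sep F)` with `p ^ n R = P` and `c n σ = σ R - R` for all `σ`. -/
def ComesFromK (p q : ℕ) {K F : Type} [Field K] [Field F] [Algebra K F] (f : K[X])
    (c : ℕ → (Sep F ≃ₐ[F] Sep F) → Jac q f (Sep F)) : Prop :=
  ∀ n, ∃ (P : Jac q f K) (R : Jac q f (Sep F)), p ^ n • R = jm q f (incl K K (Sep F)) P ∧
    IsCobOf q f (c n) R

/-- If `c` is a cocycle of `Gal(Sep F / F)` with values in `T_p J` which is locally trivial at the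
maximal ideals of `B`, and the class of `c` in `H ^ 1 (F, V_p J)` is fixed by the Galois group of `K`,
then the class of `c` comes from `J(K)`. -/
def TateAt (p q : ℕ) {K F : Type} [Field K] [Field F] [Algebra K F] (B : Type) [CommRing B]
    [IsDedekindDomain B] [Algebra B F] [IsFractionRing B F] (f : K[X]) : Prop :=
  ∀ c : ℕ → (Sep F ≃ₐ[F] Sep F) → Jac q f (Sep F), IsTC p q f c →
    (∀ n, IsSelmer q B f (c n)) → IsInv p q f c → ComesFromK p q f c

/-- The Tate conjecture at `p` for the surface with generic fibre `w ^ q = f(x)` over `K = k(u)`, for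
every Galois extension `k'` of `k` (for example the separable closure of `k`), `F = k' K` and `B` the
integral closure of `k'[u]` in `F`: only the places of `F` over the affine `u`-line are used. -/
def TateConj (p q : ℕ) (k : Type) {K : Type} [Field k] [Field K] [Algebra k[X] K] (f : K[X]) : Prop :=
  ∀ (k' F B : Type) [Field k'] [Algebra k k'] [IsGalois k k'] [Field F] [Algebra k'[X] F]
    [Algebra K F] [CommRing B] [IsDedekindDomain B] [Algebra B F] [IsFractionRing B F]
    [Algebra k'[X] B] [IsScalarTower k'[X] B F] [IsIntegralClosure B k'[X] F],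
    IsConstantExtension k k' K F → TateAt p q (F := F) B f

/-- The conclusions for the surface with generic fibre `w ^ q = f(x)` over `K = k(u)`, `A = k[u]`: the
Tate conjecture at `p`, the triviality of the `p`-primary part of the Tate-Shafarevich group (even with
respect to the places of the affine `u`-line only), and the unique divisibility of `J(K)` by `p`. -/
def ConclFor (p q : ℕ) (k : Type) {K : Type} [Field k] [Field K] [Algebra k[X] K] (A : Type)
    [CommRing A] [IsDedekindDomain A] [Algebra A K] [IsFractionRing A K] (f : K[X]) : Prop :=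
  TateConj p q k f ∧ ShaTriv p q A f ∧ ∀ P : Jac q f K, ∃! Q : Jac q f K, p • Q = P

/-- The conclusions for the surface `w ^ q = F(x, h(u))`. -/
def Concl {k : Type} [Field k] (p q : ℕ) (F : k[X][X]) (h : k[X]) : Prop :=
  ∀ (K : Type) [Field K] [Algebra k[X] K] [IsFractionRing k[X] K],
    ConclFor p q k k[X] (surfPoly F h K)

/-- The polynomial `g(x) + s`, where `g(x) = x ^ n + ∑ v_i x ^ i`, `i < n`, and `v` is an integer
vector. -/
noncomputable def lineOf (k : Type) [Field k] {n : ℕ} (v : Fin n → ℤ) : k[X][X] :=
  (X ^ n + ∑ i : Fin n, C ((v i : ℤ) : k) * X ^ (i : ℕ) : k[X]).map C + C X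

/-- (1) All fields. -/
def Criterion : Prop :=
  ∀ (p e : ℕ), p.Prime → e ≠ 0 → ∀ (k : Type) [Field k] (ζ : k), IsPrimitiveRoot ζ (p ^ e) →
    ∀ (F : k[X][X]) (l : List k), IsBranchCurve p F → GoodCriticalValues F (nested p l) →
      Concl p (p ^ e) F (nested p l)

/-- (2) Number fields: the set of the exceptions has density zero. -/
def NumberFields : Prop :=
  ∀ (p e : ℕ), p.Prime → e ≠ 0 → ∀ (k : Type) [Field k] [NumberField k] (ζ : k),
    IsPrimitiveRoot ζ (p ^ e) → ∀ n : ℕ, p.Coprime n → ∀ l : List k,
      Tendsto (fun H : ℕ => (({v : Fin n → ℤ | (∀ i, |v i| ≤ (H : ℤ)) ∧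
        ¬ Concl p (p ^ e) (lineOf k v) (nested p l)}.ncard : ℕ) : ℝ) /
          (2 * (H : ℝ) + 1) ^ n) atTop (𝓝 0)

theorem tate_of {p q : ℕ} {K F : Type} [Field K] [Field F] [Algebra K F] {B : Type} [CommRing B]
    [IsDedekindDomain B] [Algebra B F] [IsFractionRing B F] {f : K[X]}
    (h : Pool.Agent.Q45.GP.TateOver (F := F) p q B f) : TateAt p q (F := F) B f := by
  intro c hc hl hi n
  exact h c ⟨fun n => ⟨(hc.coc n).lc, (hc.coc n).mul⟩, hc.zero, hc.step⟩ hl
    (fun τ => by
      obtain ⟨m, Q, hQ, hm⟩ := hi τ
      exact ⟨m, Q, ⟨hQ.zero, hQ.step⟩, hm⟩) n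

theorem pos_of {p n : ℕ} (hp : p.Prime) (h : p.Coprime n) : 0 < n := by
  rw [Nat.pos_iff_ne_zero]
  rintro rfl
  rw [Nat.coprime_zero_right] at h
  exact hp.ne_one h

theorem nested_eq {k : Type} [Field k] (p : ℕ) (l : List k) :
    nested p l = Pool.Agent.Q45.TG.nest p l := by
  induction l with
  | nil => rfl
  | cons a l ih => rw [Pool.Agent.Q45.TG.nest, ← ih]; rfl

theorem irr_self {k : Type} [Field k] {F : k[X][X]} (h : IsGeomIrreducible F) : Irreducible F := by
  have h1 := h k
  have h3 : mapRingHom (algebraMap k k) = RingHom.id k[X] := by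
    rw [Algebra.algebraMap_self, mapRingHom_id]
  rwa [h3, Polynomial.map_id] at h1

theorem criterion : Criterion := by
  intro p e hp he k _ ζ hζ F l hF hl K _ _ _
  have hpos := pos_of hp hF.coprime
  have hirr := irr_self hF.irreducible
  have hB : Pool.Agent.Q45.TG.IsBr p F := ⟨hF.dedekind, hF.units, hF.noTorsion⟩
  rw [nested_eq] at hl ⊢
  obtain ⟨h1, h2⟩ := Pool.Agent.Q45.TG.surf_sha hp rfl he hζ hF.monic hirr hpos hF.coprime
    hF.deriv_ne hF.smooth hB l hl K
  refine ⟨?_, shaTriv_of h1, h2⟩
  intro k' E B _ _ _ _ _ _ _ _ _ _ _ _ _ hE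
  exact tate_of (Pool.Agent.Q45.TG.surf_tate (k' := k') (A' := B) hp rfl he hζ hF.monic hirr hpos
    hF.coprime hF.deriv_ne hF.smooth hB (hF.irreducible k') l hl K
    ⟨hE.inj, hE.comp, hE.gen⟩)

/-- Only finitely many irreducible polynomials `b` have the property that `b(h(u))` has a multiple
factor. -/
theorem finite_crit {k : Type} [Field k] [CharZero k] {h : k[X]} (hh : 0 < h.natDegree) :
    {b : k[X] | b.Monic ∧ Irreducible b ∧ ¬ Squarefree (b.comp h)}.Finite := by
  have hd : derivative h ≠ 0 := by
    intro h0
    have h1 := natDegree_eq_zero_of_derivative_eq_zero h0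
    omega
  set S := UniqueFactorizationMonoid.normalizedFactors (derivative h) with hS
  have hfin : (⋃ π ∈ {π : k[X] | π ∈ S}, {b : k[X] | b.Monic ∧ Irreducible b ∧
      Irreducible π ∧ π ∣ b.comp h}).Finite := by
    refine Set.Finite.biUnion (Multiset.finite_toSet S) fun π _ => Set.Subsingleton.finite ?_
    rintro b₁ ⟨h1, h2, h3, h4⟩ b₂ ⟨h5, h6, h7, h8⟩
    by_contra hne
    have hcop : IsCoprime b₁ b₂ := by
      rw [h2.coprime_iff_not_dvd]
      intro hdvd
      exact hne (eq_of_monic_of_associated h1 h5 (h2.associated_of_dvd h6 hdvd))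
    obtain ⟨u, w, huw⟩ := hcop
    have h9 := congrArg (fun r : k[X] => r.comp h) huw
    simp only [add_comp, mul_comp, one_comp] at h9
    refine h3.not_isUnit (isUnit_of_dvd_one ?_)
    rw [← h9]
    exact dvd_add (h4.mul_left _) (h8.mul_left _)
  refine hfin.subset ?_
  rintro b ⟨hb, hbi, hsq⟩
  have hb0 : b.comp h ≠ 0 := by
    intro h0
    rcases comp_eq_zero_iff.1 h0 with h1 | ⟨-, h3⟩
    · exact hbi.ne_zero h1
    · have h4 := congrArg natDegree h3
      rw [natDegree_C] at h4
      omega
  rw [squarefree_iff_irreducible_sq_not_dvd_of_ne_zero hb0] at hsq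
  push Not at hsq
  obtain ⟨π, hπ, hdvd⟩ := hsq
  obtain ⟨c, hc⟩ := hdvd
  have hder : π ∣ derivative h * (derivative b).comp h := by
    rw [← derivative_comp, hc, derivative_mul, derivative_mul]
    refine dvd_add (Dvd.dvd.mul_right (dvd_add ?_ ?_) _) ((dvd_mul_right _ _).mul_right _)
    · exact dvd_mul_left _ _
    · exact dvd_mul_right _ _
  have hπb : π ∣ b.comp h := by
    rw [hc, mul_assoc]
    exact dvd_mul_right _ _
  have hndvd : ¬ π ∣ (derivative b).comp h := by
    intro hd2
    obtain ⟨u, w, huw⟩ := hbi.separable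
    have h9 := congrArg (fun r : k[X] => r.comp h) huw
    simp only [add_comp, mul_comp, one_comp] at h9
    refine hπ.not_isUnit (isUnit_of_dvd_one ?_)
    rw [← h9]
    exact dvd_add (hπb.mul_left _) (hd2.mul_left _)
  have hπh : π ∣ derivative h := (hπ.prime.dvd_or_dvd hder).resolve_right hndvd
  obtain ⟨π', hπ', hass⟩ := UniqueFactorizationMonoid.exists_mem_normalizedFactors_of_dvd hd hπ hπh
  exact Set.mem_biUnion (x := π') hπ' ⟨hb, hbi, hass.irreducible hπ, hass.symm.dvd.trans hπb⟩

/-- (1) The criterion. (2) Number fields. -/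
theorem result : Criterion ∧ NumberFields := by
  refine ⟨criterion, ?_⟩
  intro p e hp he k _ _ ζ hζ n hcop l
  have hn := pos_of hp hcop
  have hh : 0 < (nested p l).natDegree := by
    rw [nested_eq]
    exact (Pool.Agent.Q45.TG.nest_monic hp.pos l).2
  have hz : Q45.Tate.Zd (⋃ b : {b : k[X] // b ∈ {b : k[X] | b.Monic ∧ Irreducible b ∧
      ¬ Squarefree (b.comp (nested p l))}},
      {v : Fin n → ℤ | ¬ Irreducible (b.1.comp (-(Pool.Agent.Y160.T3.mF fun i => ((v i : ℤ) : k))))}) := by
    haveI : Finite {b : k[X] // b ∈ {b : k[X] | b.Monic ∧ Irreducible b ∧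
      ¬ Squarefree (b.comp (nested p l))}} := (finite_crit hh).to_subtype
    exact Q45.Tate.Zd.iUnion fun b => Pool.Agent.Q45.TT.zd_comp b.2.2.1 hn
  refine Q45.Tate.Zd.mono (S := {v | ¬ Concl p (p ^ e) (lineOf k v) (nested p l)}) hz ?_
  intro v hv
  by_contra hex
  apply hv
  set g : k[X] := Pool.Agent.Y160.T3.mF fun i => ((v i : ℤ) : k) with hgv
  have hlg : lineOf k v = Pool.Agent.Q45.TG.gs g := rfl
  have hg : g.Monic := Pool.Agent.Y160.T3.mF_monic _
  have hgn : g.natDegree = n := Pool.Agent.Y160.T3.mF_natDegree _
  have hpos : 0 < g.natDegree := by omega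
  have hd : derivative g ≠ 0 := by
    intro h0
    have h1 := natDegree_eq_zero_of_derivative_eq_zero h0
    omega
  have hB := Pool.Agent.Q45.TG.gs_isBr (p := p) g
  rw [hlg]
  refine criterion p e hp he k ζ hζ _ l ⟨Pool.Agent.Q45.TG.gs_monic hg hpos, ?_, ?_,
    Pool.Agent.Q45.TG.gs_der hd, Pool.Agent.Q45.TG.gs_smooth g, hB.ded, hB.units, hB.cls⟩ ?_
  · rw [Pool.Agent.Q45.TG.gs_natDegree hg hpos, hgn]
    exact hcop
  · intro k' _ _
    have h1 : (Pool.Agent.Q45.TG.gs g).map (mapRingHom (algebraMap k k')) =
        Pool.Agent.Q45.TG.gs (g.map (algebraMap k k')) := by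
      unfold Pool.Agent.Q45.TG.gs
      rw [Polynomial.map_add, map_C, coe_mapRingHom, map_X, Polynomial.map_map, Polynomial.map_map]
      congr 2
      refine RingHom.ext fun c => ?_
      show (C c : k[X]).map (algebraMap k k') = C (algebraMap k k' c)
      rw [map_C]
    rw [h1]
    exact Pool.Agent.Q45.TG.gs_irr (hg.map _) (by rwa [hg.natDegree_map])
  · intro b hbm hbi hsq
    have hirr : Irreducible (b.comp (-g)) := by
      by_contra hcon
      exact hex (Set.mem_iUnion.2 ⟨⟨b, hbm, hbi, hsq⟩, hcon⟩)
    exact ⟨Pool.Agent.Q45.TG.gs_red hg hpos hbi hirr,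
      Pool.Agent.Q45.TG.gs_sep hbi hirr.separable⟩

end Pool.Agent.Results.MP_1bad5e_ag.NestedPowerSurfaces
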